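import Pool.Agent.helper17.EXT.SpecJ

set_option autoImplicit false

/-!
# Row ftj:JCM of project EXT (MP_561ff4_al): commuting root elements in characteristic 2
-/

open Finset

namespace Pool.Agent.EXT

open Pool.Agent.EXC

theorem JCM_nb : ∀ α, ip C6 α α = 2 → ∃ β, ip C6 β β = 2 ∧ ip C6 α β = -1 :=
  (f_NBR 6 C6 1 th ![0, 2, 3, 4, 5] f_DE6.2).1

theorem JCM_xtr {K : Type} [Field K] (α : Fin 6 → ℤ) (hα : ip C6 α α = 2) : Xtr C6 (E C6 α : Lm C6 K) :=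
  ((f_EXF 6 C6 K JCM_nb).2.2.1 _ ((f_EXF 6 C6 K JCM_nb).2.1 α hα)).1

theorem JCM_add {K : Type} [Field K] (α : Fin 6 → ℤ) (hα : ip C6 α α = 2) (s t : K) (v : Lm C6 K) :
    xe C6 (E C6 α) s (xe C6 (E C6 α) t v) = xe C6 (E C6 α) (s + t) v :=
  (f_XAU 6 C6 K _ (JCM_xtr α hα)).1 s t v

theorem JCM_com {K : Type} [Field K] (α β : Fin 6 → ℤ) (hα : ip C6 α α = 2) (hβ : ip C6 β β = 2) (h : 0 ≤ ip C6 α β)
    (b c : K) (v : Lm C6 K) :
    xe C6 (E C6 α) b (xe C6 (E C6 β) c v) = xe C6 (E C6 β) c (xe C6 (E C6 α) b v) :=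
  (f_COL 6 C6 K α β hα hβ).2 h b c v

theorem JCM_zero {K : Type} [Field K] (a v : Lm C6 K) : xe C6 a 0 v = v := by
  unfold xe
  simp

theorem JCM_pm {K : Type} [Field K] (h2 : (2 : K) = 0) (z : ℤ) (hz : z = 1 ∨ z = -1) : (z : K) = 1 := by
  rcases hz with h | h
  · rw [h, Int.cast_one]
  · rw [h, Int.cast_neg, Int.cast_one]
    linear_combination (-1 : K) * h2

theorem JCM_sg {K : Type} [Field K] (h2 : (2 : K) = 0) (α β : Fin 6 → ℤ) : (sg C6 α β : K) = 1 := by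
  apply JCM_pm h2
  unfold sg
  split_ifs
  · exact Or.inl rfl
  · exact Or.inr rfl

/-- the action of `x_α(t)` on `E β`, `(α, β) = -1`, in characteristic 2 -/
theorem JCM_act {K : Type} [Field K] (h2 : (2 : K) = 0) (α β : Fin 6 → ℤ) (hα : ip C6 α α = 2) (hβ : ip C6 β β = 2)
    (h : ip C6 α β = -1) (t : K) : xe C6 (E C6 α) t (E C6 β) = (E C6 β + t • E C6 (α + β) : Lm C6 K) := by
  rw [(f_ACT 6 C6 K α t hα).2.1 β hβ h, JCM_sg h2, mul_one]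

/-- conjugation of a product of two root elements -/
theorem JCM_conj {K : Type} [Field K] (h2 : (2 : K) = 0) (h : Lm C6 K ≃ₗ[K] Lm C6 K) (hA : Au C6 h)
    (γ γ' lam : Fin 6 → ℤ) (hγ : ip C6 γ γ = 2) (hγ' : ip C6 γ' γ' = 2) (hl : ip C6 lam lam = 2)
    (h1 : ip C6 γ lam = 1) (h1' : ip C6 γ' lam = 1) (s t : K)
    (e : h (E C6 γ) = (E C6 γ + t • E C6 lam : Lm C6 K)) (e' : h (E C6 γ') = (E C6 γ' + t • E C6 lam : Lm C6 K))
    (v : Lm C6 K) :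
    h (xe C6 (E C6 γ) s (xe C6 (E C6 γ') s v)) = xe C6 (E C6 γ) s (xe C6 (E C6 γ') s (h v)) := by
  have key : ∀ μ : Fin 6 → ℤ, ip C6 μ μ = 2 → ip C6 μ lam = 1 → h (E C6 μ) = (E C6 μ + t • E C6 lam : Lm C6 K) →
      ∀ w : Lm C6 K, h (xe C6 (E C6 μ) s w) = xe C6 (E C6 μ) s (xe C6 (E C6 lam) (t * s) (h w)) := by
    intro μ hμ hμl he w
    have e1 := ((f_XAU 6 C6 K _ (JCM_xtr μ hμ)).2.2.1 h hA).2 s w
    have e2 := ((f_COL 6 C6 K μ lam hμ hl).1 hμl).1 1 t s (h w)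
    rw [one_smul, one_mul] at e2
    rw [e1, he, e2]
  rw [key γ hγ h1 e, key γ' hγ' h1' e', JCM_com lam γ' hl hγ' (by rw [ip_comm, h1']; norm_num), JCM_add lam hl]
  have e3 : t * s + t * s = 0 := by
    rw [← two_mul, h2, zero_mul]
  rw [e3, JCM_zero]

theorem JCM (hRTF : RTF_stmt) (hSGR : SGR_stmt) : JCM_stmt := by
  intro K _ h2
  obtain ⟨hip, hpp, hpadd, -, -, -, hsn, -, -, -, -, -, hperp, -, -⟩ := hRTF
  obtain ⟨-, -, -, hS4, -, hGS⟩ := hSGR K (RingEquiv.refl K) (fun x => rfl)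
  have hsn1 : ∀ γ, (sn γ : K) = 1 := fun γ => JCM_pm h2 _ (hsn γ)
  have hval : ∀ γ (s : K) (g : Lm C6 K ≃ₗ[K] Lm C6 K), IsS (RingEquiv.refl K) γ s g →
      ∀ v, g v = xe C6 (E C6 γ) s (xe C6 (E C6 (pv γ)) s v) := by
    intro γ s g hg v
    have e := hg v
    rw [hsn1, one_mul] at e
    exact e
  have hp2 : ∀ γ, ip C6 γ γ = 2 → ip C6 (pv γ) (pv γ) = 2 := fun γ h => by rw [hip, h]
  have hswap : ∀ γ δ, ip C6 (pv γ) δ = ip C6 γ (pv δ) := fun γ δ => by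
    rw [← hip γ (pv δ), hpp]
  refine ⟨?_, ?_⟩
  · -- the essential case
    have main : ∀ γ δ, SR γ → SR δ → ip C6 γ δ = -1 → ip C6 γ (pv δ) = 1 → ∀ (s t : K) (g h : Lm C6 K ≃ₗ[K] Lm C6 K),
        IsS (RingEquiv.refl K) γ s g → IsS (RingEquiv.refl K) δ t h → g * h = h * g := by
      intro γ δ hγ hδ ha hb s t g h hg hh
      have hγ2 := hγ.1
      have hδ2 := hδ.1
      have hγp := hperp γ hγ
      have hδp := hperp δ hδ
      have hpγ2 := hp2 γ hγ2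
      have hpδ2 := hp2 δ hδ2
      have ha' : ip C6 δ γ = -1 := by rw [ip_comm, ha]
      have hl2 : ip C6 (δ + γ) (δ + γ) = 2 := (add_root_iff hδ2 hγ2).2 ha'
      have hpl : pv (δ + γ) = δ + γ := by
        have h3 := hp2 _ hl2
        refine (eq_of_ip_eq_two hl2 h3 ?_).symm
        rw [hpadd, ip_add_left, ip_add_right, ip_add_right, hδp, hγp, hb, ip_comm C6 δ (pv γ), hswap, hb]
        norm_num
      have h1 : ip C6 γ (δ + γ) = 1 := by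
        rw [ip_add_right, ha, hγ2]; norm_num
      have h1' : ip C6 (pv γ) (δ + γ) = 1 := by
        rw [← hpl, hip, h1]
      have hA : Au C6 h := (hGS h (hS4 δ t h hδ hh).2).2.1
      have e : h (E C6 γ) = (E C6 γ + t • E C6 (δ + γ) : Lm C6 K) := by
        rw [hval δ t h hh, (f_ACT 6 C6 K (pv δ) t hpδ2).1 γ hγ2 (by rw [ip_comm, hb]; norm_num), JCM_act h2 δ γ hδ2 hγ2 ha']
      have e' : h (E C6 (pv γ)) = (E C6 (pv γ) + t • E C6 (δ + γ) : Lm C6 K) := by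
        rw [hval δ t h hh, JCM_act h2 (pv δ) (pv γ) hpδ2 hpγ2 (by rw [hip, ha']), ← hpadd, hpl]
        obtain ⟨X, -, hX⟩ := (f_EXF 6 C6 K JCM_nb).2.2.1 _ ((f_EXF 6 C6 K JCM_nb).2.1 δ hδ2) |>.2.2.2.2.1 t
        rw [← hX, map_add, map_smul, hX, hX,
          (f_ACT 6 C6 K δ t hδ2).1 (pv γ) hpγ2 (by rw [ip_comm, hswap, hb]; norm_num),
          (f_ACT 6 C6 K δ t hδ2).1 (δ + γ) hl2 (by rw [ip_add_right, hδ2, ha']; norm_num)]
      refine LinearEquiv.ext fun v => ?_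
      have e4 := JCM_conj h2 h hA γ (pv γ) (δ + γ) hγ2 hpγ2 hl2 h1 h1' s t e e' v
      rw [← hval γ s g hg, ← hval γ s g hg] at e4
      exact e4.symm
    intro γ δ hγ hδ hsum s t g h hg hh
    have hγ2 := hγ.1
    have hδ2 := hδ.1
    have hγp := hperp γ hγ
    have hδp := hperp δ hδ
    have hpγ2 := hp2 γ hγ2
    have hpδ2 := hp2 δ hδ2
    obtain ⟨hl1, hu1⟩ := ip_abs_le (C := C6) hγ2 hδ2
    obtain ⟨hl2, hu2⟩ := ip_abs_le (C := C6) hγ2 hpδ2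
    have hne1 : ip C6 γ δ = 2 → ip C6 γ (pv δ) = 0 := by
      intro h3
      have h4 := eq_of_ip_eq_two hγ2 hδ2 h3
      rw [h4]
      exact hδp
    have hne2 : ip C6 γ (pv δ) = 2 → ip C6 γ δ = 0 := by
      intro h3
      have h4 := eq_of_ip_eq_two hγ2 hpδ2 h3
      rw [h4, ip_comm]
      exact hδp
    have hne3 : ip C6 γ δ = -2 → ip C6 γ (pv δ) = 0 := by
      intro h3
      have h4 := eq_neg_of_ip_eq_neg_two hδ2 hγ2 (by rw [ip_comm, h3])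
      rw [h4, ip_neg_left, hδp, neg_zero]
    have hne4 : ip C6 γ (pv δ) = -2 → ip C6 γ δ = 0 := by
      intro h3
      have h4 := eq_neg_of_ip_eq_neg_two hpδ2 hγ2 (by rw [ip_comm, h3])
      rw [h4, ip_neg_left, ip_comm, hδp, neg_zero]
    have hcases : (0 ≤ ip C6 γ δ ∧ 0 ≤ ip C6 γ (pv δ)) ∨ (ip C6 γ δ = -1 ∧ ip C6 γ (pv δ) = 1) ∨
        (ip C6 γ (pv δ) = -1 ∧ ip C6 γ δ = 1) := by
      omega
    rcases hcases with ⟨h3, h4⟩ | ⟨h3, h4⟩ | ⟨h3, h4⟩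
    · refine LinearEquiv.ext fun v => ?_
      have h5 : 0 ≤ ip C6 (pv γ) δ := by rw [hswap]; exact h4
      have h6 : 0 ≤ ip C6 (pv γ) (pv δ) := by rw [hip]; exact h3
      rw [LinearEquiv.mul_apply, LinearEquiv.mul_apply, hval γ s g hg, hval δ t h hh, hval γ s g hg, hval δ t h hh,
        JCM_com (pv γ) δ hpγ2 hδ2 h5, JCM_com (pv γ) (pv δ) hpγ2 hpδ2 h6, JCM_com γ δ hγ2 hδ2 h3,
        JCM_com γ (pv δ) hγ2 hpδ2 h4]
    · exact main γ δ hγ hδ h3 h4 s t g h hg hh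
    · have hSp : SR (pv δ) := ⟨hpδ2, by
        rw [hpp]
        exact fun h => hδ.2 h.symm⟩
      have h5 := (hS4 δ t h hδ hh).1
      rw [hsn1, one_mul] at h5
      exact main γ (pv δ) hγ hSp h3 (by rw [hpp, h4]) s t g h hg h5
  · intro γ β hγ hβ hip0 s t g h hg hh
    have hγ2 := hγ.1
    have hpγ2 := hp2 γ hγ2
    have h5 : 0 ≤ ip C6 (pv γ) β := by
      rw [hswap, hβ.2]
      exact hip0
    refine LinearEquiv.ext fun v => ?_
    rw [LinearEquiv.mul_apply, LinearEquiv.mul_apply, hval γ s g hg, hh, hval γ s g hg, hh,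
      JCM_com (pv γ) β hpγ2 hβ.1 h5, JCM_com γ β hγ2 hβ.1 hip0]

end Pool.Agent.EXT
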